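import Mathlib
import Pool.Agent.Lib.MP_d885f5.Sch.Defs
import Pool.Agent.Lib.MP_d885f5.Sch.Main

open AlgebraicGeometry CategoryTheory Pool.Agent.Lib.MP_d885f5.Sch

namespace Pool.Agent.Results.MP_d885f5_ag.RationalSurface

/-- There is a smooth projective rational surface `X` over `ℂ` on which there are irreducible
curves `D` with `h⁰(D) = 1` and `h¹(D)` arbitrarily large. The curve `D` is the closure of the
point `η` of codimension one. -/
theorem result : ∃ (X : Scheme.{0}) (_ : IsIntegral X) (s : X ⟶ SpecC),
    IsSmoothProjectiveRationalSurface s ∧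
      ∀ N : ℕ, ∃ η : X, Order.coheight η = 1 ∧ h s 0 η = 1 ∧ (N : Cardinal.{0}) ≤ h s 1 η :=
  main

end Pool.Agent.Results.MP_d885f5_ag.RationalSurface
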